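import Mathlib

/-!
# KL.Sdr : injective choice for families of countable infinite sets

Every pair of different points lies in only countably many members of the family.
-/

set_option autoImplicit false

namespace Pool.Agent.H6.KL

open Cardinal Set

universe u

section

variable {X R : Type u} (S : R → Set X)

/-- one step of the closure -/
def nxt (A : Set R) : Set R :=
  A ∪ {r | ∃ x y, x ≠ y ∧ (∃ a ∈ A, x ∈ S a) ∧ (∃ a ∈ A, y ∈ S a) ∧ x ∈ S r ∧ y ∈ S r}

/-- the closure -/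
def cl (A : Set R) : Set R := ⋃ n : ℕ, (nxt S)^[n] A

theorem subset_nxt (A : Set R) : A ⊆ nxt S A := subset_union_left

theorem nxt_mono {A B : Set R} (h : A ⊆ B) : nxt S A ⊆ nxt S B := by
  rintro r (hr | ⟨x, y, hxy, ⟨a, ha, hx⟩, ⟨a', ha', hy⟩, h1, h2⟩)
  · exact Or.inl (h hr)
  · exact Or.inr ⟨x, y, hxy, ⟨a, h ha, hx⟩, ⟨a', h ha', hy⟩, h1, h2⟩

theorem iter_mono {A B : Set R} (h : A ⊆ B) (n : ℕ) : (nxt S)^[n] A ⊆ (nxt S)^[n] B := by
  induction n with
  | zero => exact h
  | succ n ih =>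
    rw [Function.iterate_succ_apply', Function.iterate_succ_apply']
    exact nxt_mono S ih

theorem iter_le {A : Set R} {m n : ℕ} (h : m ≤ n) : (nxt S)^[m] A ⊆ (nxt S)^[n] A := by
  induction h with
  | refl => exact Subset.rfl
  | step _ ih =>
    rw [Function.iterate_succ_apply']
    exact ih.trans (subset_nxt S _)

theorem subset_cl (A : Set R) : A ⊆ cl S A := fun _ h => mem_iUnion.2 ⟨0, h⟩

theorem cl_mono {A B : Set R} (h : A ⊆ B) : cl S A ⊆ cl S B := by
  intro r hr
  obtain ⟨n, hn⟩ := mem_iUnion.1 hr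
  exact mem_iUnion.2 ⟨n, iter_mono S h n hn⟩

/-- the closure is closed -/
theorem cl_closed {A : Set R} {x y : X} (hxy : x ≠ y) {a b r : R} (ha : a ∈ cl S A) (hb : b ∈ cl S A)
    (hx : x ∈ S a) (hy : y ∈ S b) (h1 : x ∈ S r) (h2 : y ∈ S r) : r ∈ cl S A := by
  obtain ⟨m, hm⟩ := mem_iUnion.1 ha
  obtain ⟨n, hn⟩ := mem_iUnion.1 hb
  refine mem_iUnion.2 ⟨max m n + 1, ?_⟩
  rw [Function.iterate_succ_apply']
  exact Or.inr ⟨x, y, hxy, ⟨a, iter_le S (le_max_left m n) hm, hx⟩, ⟨b, iter_le S (le_max_right m n) hn, hy⟩,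
    h1, h2⟩

variable (hc : ∀ r, (S r).Countable) (hp : ∀ x y, x ≠ y → {r | x ∈ S r ∧ y ∈ S r}.Countable)

include hc in
theorem mk_pts_le {A : Set R} {c : Cardinal.{u}} (h0 : ℵ₀ ≤ c) (hA : #A ≤ c) : #{x | ∃ a ∈ A, x ∈ S a} ≤ c := by
  have h1 : {x | ∃ a ∈ A, x ∈ S a} = ⋃ a : A, S a := by
    ext x
    simp
  rw [h1]
  refine (mk_iUnion_le _).trans ?_
  have h2 : (⨆ a : A, #(S a)) ≤ ℵ₀ := ciSup_le' fun a => (hc a).le_aleph0
  exact (mul_le_mul' hA (h2.trans h0)).trans (mul_eq_self h0).le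

include hc hp in
theorem mk_nxt_le {A : Set R} {c : Cardinal.{u}} (h0 : ℵ₀ ≤ c) (hA : #A ≤ c) : #(nxt S A) ≤ c := by
  have hP := mk_pts_le S hc h0 hA
  set P : Set X := {x | ∃ a ∈ A, x ∈ S a} with hPd
  have h1 : {r | ∃ x y, x ≠ y ∧ (∃ a ∈ A, x ∈ S a) ∧ (∃ a ∈ A, y ∈ S a) ∧ x ∈ S r ∧ y ∈ S r} ⊆
      ⋃ p : P × P, {r | p.1.1 ≠ p.2.1 ∧ p.1.1 ∈ S r ∧ p.2.1 ∈ S r} := by
    rintro r ⟨x, y, hxy, hx, hy, h1, h2⟩
    exact mem_iUnion.2 ⟨(⟨x, hx⟩, ⟨y, hy⟩), hxy, h1, h2⟩
  have h2 : #(⋃ p : P × P, {r | p.1.1 ≠ p.2.1 ∧ p.1.1 ∈ S r ∧ p.2.1 ∈ S r} : Set R) ≤ c := by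
    refine (mk_iUnion_le _).trans ?_
    have h3 : ∀ p : P × P, #{r | p.1.1 ≠ p.2.1 ∧ p.1.1 ∈ S r ∧ p.2.1 ∈ S r} ≤ ℵ₀ := by
      rintro ⟨x, y⟩
      by_cases hxy : x.1 = y.1
      · have : {r | x.1 ≠ y.1 ∧ x.1 ∈ S r ∧ y.1 ∈ S r} = ∅ := by
          ext r
          simp [hxy]
        simp only
        rw [this]
        simp
      · refine Countable.le_aleph0 ((hp x.1 y.1 hxy).mono ?_)
        rintro r ⟨-, h4, h5⟩
        exact ⟨h4, h5⟩
    refine (mul_le_mul' ?_ (ciSup_le' h3)).trans ((mul_le_mul' le_rfl h0).trans (mul_eq_self h0).le)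
    rw [mk_prod, lift_id]
    exact (mul_le_mul' hP hP).trans (mul_eq_self h0).le
  refine (mk_union_le _ _).trans ?_
  exact (add_le_add hA ((mk_le_mk_of_subset h1).trans h2)).trans (add_eq_self h0).le

include hc hp in
theorem mk_cl_le {A : Set R} {c : Cardinal.{u}} (h0 : ℵ₀ ≤ c) (hA : #A ≤ c) : #(cl S A) ≤ c := by
  have h1 : ∀ n, #((nxt S)^[n] A) ≤ c := by
    intro n
    induction n with
    | zero => exact hA
    | succ n ih =>
      rw [Function.iterate_succ_apply']
      exact mk_nxt_le S hc hp h0 ih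
  unfold cl
  have h2 := mk_iUnion_le_lift (fun n : ℕ => (nxt S)^[n] A)
  simp only [lift_uzero, mk_eq_aleph0, lift_aleph0] at h2
  refine h2.trans ?_
  refine (mul_le_mul' le_rfl (ciSup_le' h1)).trans ((mul_le_mul' h0 le_rfl).trans (mul_eq_self h0).le)

end

/-- greedy choice for countable index sets -/
theorem sdr_countable {X R : Type u} [Countable R] (S : R → Set X) (hi : ∀ r, (S r).Infinite) :
    ∃ w : R → X, Function.Injective w ∧ ∀ r, w r ∈ S r := by
  classical
  obtain ⟨e, he⟩ := exists_injective_nat R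
  have hstep : ∀ (F : Finset X) (r : R), ∃ x ∈ S r, x ∉ F := by
    intro F r
    obtain ⟨x, hx, hxF⟩ := (hi r).exists_notMem_finset F
    exact ⟨x, hx, hxF⟩
  -- recursion over ℕ
  let T : ℕ → Set X := fun n => if h : ∃ r, e r = n then S h.choose else Set.univ
  by_cases hR : Nonempty R
  · obtain ⟨r₀⟩ := hR
    have hX : Infinite X := by
      have := hi r₀
      exact Set.infinite_univ_iff.1 (this.mono (subset_univ _))
    have hT : ∀ n, (T n).Infinite := by
      intro n
      simp only [T]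
      split_ifs with h
      · exact hi _
      · exact Set.infinite_univ
    obtain ⟨w, hw1, hw2⟩ : ∃ w : ℕ → X, Function.Injective w ∧ ∀ n, w n ∈ T n := by
      have hex : ∀ (n : ℕ) (f : ∀ m < n, X), ∃ x ∈ T n, ∀ m (h : m < n), f m h ≠ x := by
        intro n f
        let F : Finset X := (Finset.univ : Finset (Fin n)).image (fun m => f m.1 m.2)
        obtain ⟨x, hx, hxF⟩ := (hT n).exists_notMem_finset F
        refine ⟨x, hx, fun m h heq => hxF ?_⟩
        exact Finset.mem_image.2 ⟨⟨m, h⟩, Finset.mem_univ _, heq⟩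
      choose! g hg1 hg2 using hex
      let w : ℕ → X := fun n => Nat.strongRec (motive := fun _ => X) (fun n f => g n f) n
      have hw : ∀ n, w n = g n (fun m _ => w m) := by
        intro n
        simp only [w]
        rw [Nat.strongRec_eq]
      refine ⟨w, ?_, fun n => ?_⟩
      · intro m n hmn
        by_contra hne
        rcases lt_or_gt_of_ne hne with h | h
        · have := hg2 n (fun m _ => w m) m h
          rw [← hw n] at this
          exact this hmn
        · have := hg2 m (fun k _ => w k) n h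
          rw [← hw m] at this
          exact this hmn.symm
      · rw [hw]
        exact hg1 _ _
    refine ⟨fun r => w (e r), hw1.comp he, fun r => ?_⟩
    have h1 := hw2 (e r)
    have hex : ∃ r', e r' = e r := ⟨r, rfl⟩
    simp only [T] at h1
    rw [dif_pos hex] at h1
    rwa [he hex.choose_spec] at h1
  · have : IsEmpty R := not_nonempty_iff.1 hR
    exact ⟨fun r => isEmptyElim r, fun r => isEmptyElim r, fun r => isEmptyElim r⟩

/-- injective choice -/
theorem sdr {X : Type u} (c : Cardinal.{u}) : ∀ (R : Type u), #R = c → ∀ S : R → Set X, (∀ r, (S r).Countable) →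
    (∀ r, (S r).Infinite) → (∀ x y, x ≠ y → {r | x ∈ S r ∧ y ∈ S r}.Countable) →
    ∃ w : R → X, Function.Injective w ∧ ∀ r, w r ∈ S r := by
  induction c using WellFoundedLT.induction with
  | ind c ih =>
  intro R hR S hc hi hp
  rcases le_or_gt c ℵ₀ with hc0 | hc0
  · haveI : Countable R := by
      rw [← mk_le_aleph0_iff, hR]
      exact hc0
    exact sdr_countable S hi
  · subst hR
    obtain ⟨_, _, hord⟩ := Cardinal.exists_ord_eq_type_lt R
    have wf : WellFounded (fun a b : R => a < b) := wellFounded_lt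
    -- closures of the initial segments
    let C : R → Set R := fun i => cl S (Iic i)
    have hCmono : ∀ i j, i ≤ j → C i ⊆ C j := fun i j hij => cl_mono S (Iic_subset_Iic.2 hij)
    have hmem : ∀ r, r ∈ C r := fun r => subset_cl S _ (mem_Iic.2 le_rfl)
    have hCcard : ∀ i, #(C i) < #R := by
      intro i
      have h1 : #(Iic i) < #R := by
        have h2 : Iic i ⊆ insert i (Iio i) := by
          intro x hx
          rcases eq_or_lt_of_le (mem_Iic.mp hx) with h | h
          · exact Or.inl h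
          · exact Or.inr h
        refine lt_of_le_of_lt ((mk_le_mk_of_subset h2).trans mk_insert_le) ?_
        exact add_lt_of_lt hc0.le (Cardinal.mk_Iio_lt i hord) (one_lt_aleph0.trans hc0)
      refine lt_of_le_of_lt (mk_cl_le S hc hp (le_max_right (#(Iic i)) ℵ₀) (le_max_left _ _)) ?_
      exact max_lt h1 hc0
    let ρ : R → R := fun r => wf.min {i | r ∈ C i} ⟨r, hmem r⟩
    have hρ : ∀ r, r ∈ C (ρ r) := fun r => wf.min_mem {i | r ∈ C i} ⟨r, hmem r⟩
    have hρ' : ∀ r i, r ∈ C i → ρ r ≤ i := fun r i h => not_lt.1 (wf.not_lt_min {i | r ∈ C i} h)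
    -- the points of the earlier levels
    let Z : R → Set X := fun i => {x | ∃ j < i, ∃ a ∈ C j, x ∈ S a}
    have hZ : ∀ r, ∀ x ∈ S r, ∀ y ∈ S r, x ∈ Z (ρ r) → y ∈ Z (ρ r) → x = y := by
      rintro r x hx y hy ⟨j, hj, a, ha, hxa⟩ ⟨k, hk, b, hb, hyb⟩
      by_contra hxy
      have h1 : r ∈ C (max j k) :=
        cl_closed S hxy (hCmono _ _ (le_max_left _ _) ha) (hCmono _ _ (le_max_right _ _) hb) hxa hyb hx hy
      exact absurd (hρ' r _ h1) (not_le.2 (max_lt hj hk))
    have hinf : ∀ r, (S r \ Z (ρ r)).Infinite := by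
      intro r
      have h1 : (S r ∩ Z (ρ r)).Subsingleton := by
        rintro x ⟨hx, hxZ⟩ y ⟨hy, hyZ⟩
        exact hZ r x hx y hy hxZ hyZ
      have h2 : S r \ Z (ρ r) = S r \ (S r ∩ Z (ρ r)) := by
        rw [sdiff_self_inter]
      rw [h2]
      exact (hi r).sdiff h1.finite
    have hlev : ∀ i : R, ∃ w : {r // ρ r = i} → X, Function.Injective w ∧ ∀ r, w r ∈ S r.1 \ Z i := by
      intro i
      have hcard : #{r // ρ r = i} < #R := by
        refine lt_of_le_of_lt ?_ (hCcard i)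
        refine Cardinal.mk_le_of_injective (f := fun r : {r // ρ r = i} => (⟨r.1, by
          have := hρ r.1
          rwa [r.2] at this⟩ : C i)) ?_
        intro a b hab
        simp only [Subtype.mk.injEq] at hab
        exact Subtype.ext hab
      refine ih _ hcard {r // ρ r = i} rfl (fun r => S r.1 \ Z i) (fun r => (hc r.1).mono sdiff_subset)
        (fun r => ?_) ?_
      · have h1 := hinf r.1
        rwa [r.2] at h1
      · intro x y hxy
        refine ((hp x y hxy).preimage Subtype.val_injective).mono ?_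
        rintro r ⟨h1, h2⟩
        exact ⟨h1.1, h2.1⟩
    choose w hw1 hw2 using hlev
    refine ⟨fun r => w (ρ r) ⟨r, rfl⟩, ?_, fun r => (hw2 (ρ r) ⟨r, rfl⟩).1⟩
    have key : ∀ r r', ρ r < ρ r' → w (ρ r) ⟨r, rfl⟩ ≠ w (ρ r') ⟨r', rfl⟩ := by
      intro r r' hlt heq
      have h1 := (hw2 (ρ r) ⟨r, rfl⟩).1
      have h2 := (hw2 (ρ r') ⟨r', rfl⟩).2
      apply h2
      rw [← heq]
      exact ⟨ρ r, hlt, r, hρ r, h1⟩
    intro r r' h
    rcases lt_trichotomy (ρ r) (ρ r') with h1 | h1 | h1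
    · exact absurd h (key r r' h1)
    · have h2 : ∀ i, ∀ h3 : ρ r = i, w (ρ r) ⟨r, rfl⟩ = w i ⟨r, h3⟩ := by
        intro i h3
        subst h3
        rfl
      have h4 : w (ρ r') ⟨r, h1⟩ = w (ρ r') ⟨r', rfl⟩ := (h2 _ h1).symm.trans h
      exact congrArg Subtype.val (hw1 _ h4)
    · exact absurd h.symm (key r' r h1)

end Pool.Agent.H6.KL
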