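import Mathlib
import Pool.Agent.H58.KL2
import Pool.Agent.H6.KL.Sdr

/-!
# KL.Fam : partitions of a group into subsets that are two-sided large with countable sets
-/

set_option autoImplicit false

namespace Pool.Agent.H6.KL

open Cardinal Set Pool.Agent.H58.KL

universe u

variable {G : Type u} [Group G]

/-- a sequence that avoids the cosets of a small subgroup -/
theorem exists_seq (h0 : ℵ₀ < #G) (N : Subgroup G) (hN : #N < #G) :
    ∃ f : ℕ → G, ∀ m n, m < n → (f m)⁻¹ * f n ∉ N ∧ f n * (f m)⁻¹ ∉ N := by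
  classical
  obtain ⟨f, -, hf⟩ := exists_seq_of_forall_finset_exists (α := G) (fun _ => True)
    (fun x y => x⁻¹ * y ∉ N ∧ y * x⁻¹ ∉ N) (by
      intro s _
      by_contra hcon
      push Not at hcon
      have h1 : ∀ y : G, ∃ x ∈ s, x⁻¹ * y ∈ N ∨ y * x⁻¹ ∈ N := by
        intro y
        obtain ⟨x, hx, h⟩ := hcon y trivial
        refine ⟨x, hx, ?_⟩
        by_cases h2 : x⁻¹ * y ∈ N
        · exact Or.inl h2
        · exact Or.inr (h h2)
      have h2 : (Set.univ : Set G) ⊆ ⋃ x : s, ((fun n : N => x.1 * n.1) '' Set.univ ∪ (fun n : N => n.1 * x.1) '' Set.univ) := by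
        intro y _
        obtain ⟨x, hx, h⟩ := h1 y
        refine mem_iUnion.2 ⟨⟨x, hx⟩, ?_⟩
        rcases h with h | h
        · exact Or.inl ⟨⟨_, h⟩, trivial, by simp⟩
        · exact Or.inr ⟨⟨_, h⟩, trivial, by simp⟩
      have h3 := mk_le_mk_of_subset h2
      rw [mk_univ] at h3
      refine absurd (h3.trans (mk_iUnion_le _)) (not_le.2 ?_)
      have h4 : ∀ x : s, #(((fun n : N => x.1 * n.1) '' Set.univ ∪ (fun n : N => n.1 * x.1) '' Set.univ : Set G)) ≤
          #N + #N := by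
        intro x
        refine (mk_union_le _ _).trans (add_le_add ?_ ?_) <;>
        · refine mk_image_le.trans ?_
          rw [mk_univ]
      have h5 : #s < ℵ₀ := mk_lt_aleph0_iff.2 (Finset.finite_toSet s)
      refine lt_of_le_of_lt (mul_le_mul' le_rfl (ciSup_le' h4)) ?_
      exact mul_lt_of_lt h0.le (h5.trans h0) (add_lt_of_lt h0.le hN hN))
  exact ⟨f, hf⟩

/-- independent sequences -/
theorem exists_fam (h0 : ℵ₀ < #G) : ∃ f : G → ℕ → G, (∀ a, Function.Injective (f a)) ∧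
    (∀ a b, a ≠ b → ∀ i j k l, i ≠ j → (f a i)⁻¹ * f a j = (f b k)⁻¹ * f b l → k = l) ∧
    ∀ a b, a ≠ b → ∀ i j k l, i ≠ j → f a i * (f a j)⁻¹ = f b k * (f b l)⁻¹ → k = l := by
  classical
  obtain ⟨_, _, hord⟩ := Cardinal.exists_ord_eq_type_lt G
  have wf : WellFounded (fun a b : G => a < b) := wellFounded_lt
  let Nb : ∀ a : G, (∀ b, b < a → ℕ → G) → Subgroup G := fun a g =>
    Subgroup.closure {x | ∃ b, ∃ hb : b < a, ∃ n, g b hb n = x}
  have hNb : ∀ a g, #(Nb a g) < #G := by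
    intro a g
    refine lt_of_le_of_lt (mk_closure_le _) (max_lt ?_ h0)
    have h1 : {x | ∃ b, ∃ hb : b < a, ∃ n, g b hb n = x} = ⋃ p : Iio a × ℕ, {g p.1.1 p.1.2 p.2} := by
      ext x
      simp only [mem_setOf_eq, mem_iUnion, mem_singleton_iff, Prod.exists, Subtype.exists, mem_Iio]
      constructor
      · rintro ⟨b, hb, n, h⟩
        exact ⟨b, hb, n, h.symm⟩
      · rintro ⟨b, hb, n, h⟩
        exact ⟨b, hb, n, h.symm⟩
    rw [h1]
    have h2 : #(range fun p : Iio a × ℕ => g p.1.1 p.1.2 p.2) < #G := by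
      refine lt_of_le_of_lt mk_range_le ?_
      rw [mk_prod, mk_eq_aleph0 ℕ]
      simp only [lift_uzero, lift_aleph0]
      exact mul_lt_of_lt h0.le (Cardinal.mk_Iio_lt a hord) h0
    have h3 : (⋃ p : Iio a × ℕ, {g p.1.1 p.1.2 p.2}) = range fun p : Iio a × ℕ => g p.1.1 p.1.2 p.2 := by
      rw [iUnion_singleton_eq_range]
    rw [h3]
    exact h2
  let F : G → ℕ → G := wf.fix (C := fun _ => ℕ → G) (fun a g => (exists_seq h0 (Nb a g) (hNb a g)).choose)
  have hF : ∀ a, F a = (exists_seq h0 (Nb a fun b _ => F b) (hNb a _)).choose := fun a => wf.fix_eq _ a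
  have hF' : ∀ a m n, m < n → (F a m)⁻¹ * F a n ∉ (Nb a fun b _ => F b) ∧ F a n * (F a m)⁻¹ ∉ (Nb a fun b _ => F b) := by
    intro a m n hmn
    have h1 := (exists_seq h0 (Nb a fun b _ => F b) (hNb a _)).choose_spec m n hmn
    rw [← hF a] at h1
    exact h1
  have hmem : ∀ a b, b < a → ∀ n, F b n ∈ (Nb a fun b _ => F b) := fun a b hb n =>
    Subgroup.subset_closure ⟨b, hb, n, rfl⟩
  have hL : ∀ a m n, m ≠ n → (F a m)⁻¹ * F a n ∉ (Nb a fun b _ => F b) := by
    intro a m n hmn h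
    rcases lt_or_gt_of_ne hmn with h1 | h1
    · exact (hF' a m n h1).1 h
    · apply (hF' a n m h1).1
      have h2 := Subgroup.inv_mem _ h
      rwa [mul_inv_rev, inv_inv] at h2
  have hR : ∀ a m n, m ≠ n → F a m * (F a n)⁻¹ ∉ (Nb a fun b _ => F b) := by
    intro a m n hmn h
    rcases lt_or_gt_of_ne hmn with h1 | h1
    · apply (hF' a m n h1).2
      have h2 := Subgroup.inv_mem _ h
      rwa [mul_inv_rev, inv_inv] at h2
    · exact (hF' a n m h1).2 h
  refine ⟨F, fun a m n h => ?_, ?_, ?_⟩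
  · by_contra hne
    apply hL a m n hne
    rw [h, inv_mul_cancel]
    exact Subgroup.one_mem _
  · intro a b hab i j k l hij heq
    by_contra hkl
    rcases lt_or_gt_of_ne hab with h | h
    · apply hL b k l hkl
      rw [← heq]
      exact Subgroup.mul_mem _ (Subgroup.inv_mem _ (hmem b a h i)) (hmem b a h j)
    · apply hL a i j hij
      rw [heq]
      exact Subgroup.mul_mem _ (Subgroup.inv_mem _ (hmem a b h k)) (hmem a b h l)
  · intro a b hab i j k l hij heq
    by_contra hkl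
    rcases lt_or_gt_of_ne hab with h | h
    · apply hR b k l hkl
      rw [← heq]
      exact Subgroup.mul_mem _ (hmem b a h i) (Subgroup.inv_mem _ (hmem b a h j))
    · apply hR a i j hij
      rw [heq]
      exact Subgroup.mul_mem _ (hmem a b h k) (Subgroup.inv_mem _ (hmem a b h l))

/-- colouring of an uncountable group with `|G|` colours, each two-sided large with a countable set -/
theorem exists_col (h0 : ℵ₀ < #G) : ∃ c : G → G, ∀ g, ∃ F : Set G, F.Countable ∧
    ∀ s z, ∃ h ∈ F, c (mulS s z h) = g := by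
  classical
  obtain ⟨f, hf1, hf2, hf3⟩ := exists_fam h0
  let S : G × G × Bool → Set G := fun r => range fun n => mulS r.2.2 r.2.1 (f r.1 n)
  have hc : ∀ r, (S r).Countable := fun r => countable_range _
  have hi : ∀ r, (S r).Infinite := fun r =>
    infinite_range_of_injective ((mulS_injective _ _).comp (hf1 r.1))
  have hp : ∀ x y, x ≠ y → {r | x ∈ S r ∧ y ∈ S r}.Countable := by
    intro x y hxy
    -- the possible indices
    let A : Set G := {a | ∃ m n, m ≠ n ∧ x⁻¹ * y = (f a m)⁻¹ * f a n}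
    let B : Set G := {a | ∃ m n, m ≠ n ∧ x * y⁻¹ = f a m * (f a n)⁻¹}
    have hA : A.Subsingleton := by
      rintro a ⟨m, n, hmn, h1⟩ b ⟨m', n', hmn', h2⟩
      by_contra hab
      exact hmn' (hf2 a b hab m n m' n' hmn (h1.symm.trans h2))
    have hB : B.Subsingleton := by
      rintro a ⟨m, n, hmn, h1⟩ b ⟨m', n', hmn', h2⟩
      by_contra hab
      exact hmn' (hf3 a b hab m n m' n' hmn (h1.symm.trans h2))
    have hsub : {r | x ∈ S r ∧ y ∈ S r} ⊆ (⋃ a ∈ A, range fun n : ℕ => (a, x * (f a n)⁻¹, true)) ∪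
        ⋃ a ∈ B, range fun n : ℕ => (a, (f a n)⁻¹ * x, false) := by
      rintro ⟨a, z, s⟩ ⟨⟨m, hm⟩, ⟨n, hn⟩⟩
      have hmn : m ≠ n := by
        rintro rfl
        exact hxy (hm.symm.trans hn)
      cases s
      · right
        simp only [mulS_false] at hm hn
        refine mem_iUnion₂.2 ⟨a, ⟨m, n, hmn, ?_⟩, m, ?_⟩
        · rw [← hm, ← hn]
          group
        · rw [← hm]
          simp
      · left
        simp only [mulS_true] at hm hn
        refine mem_iUnion₂.2 ⟨a, ⟨m, n, hmn, ?_⟩, m, ?_⟩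
        · rw [← hm, ← hn]
          group
        · rw [← hm]
          simp
    refine Countable.mono hsub (Countable.union ?_ ?_)
    · exact hA.countable.biUnion fun a _ => countable_range _
    · exact hB.countable.biUnion fun a _ => countable_range _
  obtain ⟨w, hw1, hw2⟩ := sdr (X := G) _ (G × G × Bool) rfl S hc hi hp
  let c : G → G := fun x => if h : ∃ r, w r = x then h.choose.1 else 1
  have hcw : ∀ r, c (w r) = r.1 := by
    intro r
    have hex : ∃ r', w r' = w r := ⟨r, rfl⟩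
    simp only [c]
    rw [dif_pos hex, hw1 hex.choose_spec]
  refine ⟨c, fun g => ⟨range (f g), countable_range _, fun s z => ?_⟩⟩
  obtain ⟨n, hn⟩ := hw2 (g, z, s)
  refine ⟨f g n, ⟨n, rfl⟩, ?_⟩
  simp only at hn
  rw [hn, hcw]

/-- from a colouring to a partition -/
theorem exists_part {I : Type u} (κ : Cardinal.{u}) (hI : #I = κ) (c : G → I)
    (hc : ∀ i, ∃ F : Set G, (#F < κ ∧ #F ≤ ℵ₀) ∧ ∀ s z, ∃ h ∈ F, c (mulS s z h) = i) :
    ∃ P : Set (Set G), Setoid.IsPartition P ∧ #P = κ ∧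
      ∀ A ∈ P, (∃ F : Set G, #F < κ ∧ #F ≤ ℵ₀ ∧ ∀ g : G, ∃ f ∈ F, ∃ a ∈ A, f * a = g) ∧
        (∃ F : Set G, #F < κ ∧ #F ≤ ℵ₀ ∧ ∀ g : G, ∃ a ∈ A, ∃ f ∈ F, a * f = g) := by
  classical
  have hsurj : Function.Surjective c := by
    intro i
    obtain ⟨K, -, hK⟩ := hc i
    obtain ⟨h, -, he⟩ := hK true 1
    exact ⟨_, he⟩
  refine ⟨Set.range (fun i => c ⁻¹' {i}), ?_, ?_, ?_⟩
  · constructor
    · rintro ⟨i, hi⟩
      obtain ⟨x, hx⟩ := hsurj i
      have h1 : x ∈ c ⁻¹' {i} := hx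
      simp only at hi
      rw [hi] at h1
      exact h1
    · intro x
      refine ⟨c ⁻¹' {c x}, ⟨⟨c x, rfl⟩, rfl⟩, ?_⟩
      rintro B ⟨⟨i, rfl⟩, hx⟩
      have h1 : c x = i := hx
      simp only [h1]
  · rw [← hI]
    apply Cardinal.mk_range_eq
    intro i i' h
    obtain ⟨x, hx⟩ := hsurj i
    have h1 : x ∈ c ⁻¹' {i} := hx
    simp only at h
    rw [h] at h1
    have h2 : c x = i' := h1
    rw [← hx, h2]
  · rintro A ⟨i, rfl⟩
    obtain ⟨K, ⟨hK1, hK3⟩, hK2⟩ := hc i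
    constructor
    · refine ⟨(fun x => x⁻¹) '' K, lt_of_le_of_lt Cardinal.mk_image_le hK1, Cardinal.mk_image_le.trans hK3,
        fun z => ?_⟩
      obtain ⟨h, hh, he⟩ := hK2 false z
      refine ⟨h⁻¹, ⟨h, hh, rfl⟩, h * z, he, by group⟩
    · refine ⟨(fun x => x⁻¹) '' K, lt_of_le_of_lt Cardinal.mk_image_le hK1, Cardinal.mk_image_le.trans hK3,
        fun z => ?_⟩
      obtain ⟨h, hh, he⟩ := hK2 true z
      refine ⟨z * h, he, h⁻¹, ⟨h, hh, rfl⟩, by group⟩

theorem main [Infinite G] (κ : Cardinal.{u}) (h0 : ℵ₀ ≤ κ) (hκ : κ ≤ #G) :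
    ∃ P : Set (Set G), Setoid.IsPartition P ∧ #P = κ ∧
      ∀ A ∈ P, (∃ F : Set G, #F < κ ∧ #F ≤ ℵ₀ ∧ ∀ g : G, ∃ f ∈ F, ∃ a ∈ A, f * a = g) ∧
        (∃ F : Set G, #F < κ ∧ #F ≤ ℵ₀ ∧ ∀ g : G, ∃ a ∈ A, ∃ f ∈ F, a * f = g) := by
  classical
  rcases eq_or_lt_of_le h0 with h1 | h1
  · -- countably many pieces
    obtain ⟨c, hc⟩ := countable_case (G := G)
    have hden : #κ.out = ℵ₀ := by rw [mk_out, h1]
    obtain ⟨inst⟩ := Cardinal.denumerable_iff.mpr hden
    let e : ℕ ≃ κ.out := (Denumerable.eqv κ.out).symm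
    refine exists_part κ (mk_out κ) (fun w => e (c w)) fun i => ?_
    obtain ⟨F, hF⟩ := hc (e.symm i)
    have hfin : #(F : Set G) < ℵ₀ := Cardinal.mk_lt_aleph0_iff.mpr (Finset.finite_toSet F)
    refine ⟨(F : Set G), ⟨by rw [← h1]; exact hfin, hfin.le⟩, fun s z => ?_⟩
    obtain ⟨h, hh, he⟩ := hF s z
    refine ⟨h, hh, ?_⟩
    change e (c (mulS s z h)) = i
    rw [he, Equiv.apply_symm_apply]
  · obtain ⟨c, hc⟩ := exists_col (lt_of_lt_of_le h1 hκ)
    have hle : #κ.out ≤ #G := by rw [mk_out]; exact hκ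
    obtain ⟨j⟩ := hle
    have hne : Nonempty κ.out := by
      rw [← mk_ne_zero_iff, mk_out]
      exact (aleph0_pos.trans h1).ne'
    let φ : G → κ.out := Function.invFun j
    have hφ : Function.Surjective φ := Function.invFun_surjective j.injective
    refine exists_part κ (mk_out κ) (fun w => φ (c w)) fun i => ?_
    obtain ⟨g, hg⟩ := hφ i
    obtain ⟨F, hF1, hF2⟩ := hc g
    refine ⟨F, ⟨lt_of_le_of_lt hF1.le_aleph0 h1, hF1.le_aleph0⟩, fun s z => ?_⟩
    obtain ⟨h, hh, he⟩ := hF2 s z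
    exact ⟨h, hh, by rw [he, hg]⟩

end Pool.Agent.H6.KL
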